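import Pool.Agent.helper66.SL.SpecB

set_option autoImplicit false

namespace Pool.Agent.helper66.SL

open Pool.Agent.helper52.FC

theorem LH3_proof (hLTP : LTP) (hLWL : LWL) (hLCK : LCK) (hLGD : LGD) (hLCL : LCL) (hLFC : LFC) : LH3 := by
  intro hF E _ L hG hcl X hX T hT hXT a0
  have hXX : Le X X := fun e => Or.inr rfl
  have h0 : (fun g : {e : E // X e = 0} => X g.1) = fun _ => 0 := by
    funext g
    exact g.2
  have hR : R3 (Loc L X) := by
    refine ⟨hLGD E L hG X hX.1, ?_, ?_⟩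
    · have h := (hLCK E L hG.om hG.simple X hX.1 X hX.1 hXX 3).2 hX
      rwa [h0] at h
    · intro a b hab
      refine (hLCL E L X hX.1 a b).trans (hcl a.1 b.1 ?_)
      exact fun h => hab (Subtype.ext h)
  have hT' : IsTope (Loc L X) (fun g : {e : E // X e = 0} => T g.1) :=
    (hLTP E L hG.om hG.simple X hX.1 _).2 ⟨T, hT, hXT, fun _ => rfl⟩
  obtain ⟨f', hf', hw⟩ := hF {e : E // X e = 0} (Loc L X) hR _ hT' (fun g => a0 g.1)
  classical
  refine ⟨fun e => if h : X e = 0 then f' ⟨e, h⟩ else 0, ?_, ?_⟩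
  · intro g hg hXg
    have h1 := hw ⟨g, hXg⟩ ((hLWL E L hG.om hG.simple X hX.1 T hT hXT ⟨g, hXg⟩).2 hg)
    simp only [hXg, dite_true]
    exact h1
  · intro Z hZ hXZ
    have h1 : Cork (Loc L X) (fun g : {e : E // X e = 0} => Z g.1) 2 :=
      (hLCK E L hG.om hG.simple X hX.1 Z hZ.1 hXZ 2).2 hZ
    refine hLFC E L hG.om hG.simple X hX.1 Z hZ.1 hXZ f' _ ?_ (hf' _ h1)
    intro e
    simp [e.2]

end Pool.Agent.helper66.SL
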