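import Pool.Agent.helper66.SL.SpecB

set_option autoImplicit false

namespace Pool.Agent.helper66.SL

open Pool.Agent.helper52.FC

theorem UH3_proof (hUZC : UZC) (hUEX : UEX) : UH3 := by
  intro E _ L u hG hu X hX T hT hXT a0
  obtain ⟨i, j, k, hij, hik, hjk, hJ⟩ := Set.ncard_eq_three.1 (hX.2 T hT hXT)
  have hm : ∀ g, g ∈ ({i, j, k} : Set E) → Wall L T g ∧ X g = 0 := fun g hg => by
    rw [← hJ] at hg
    exact hg
  obtain ⟨hwi, hxi⟩ := hm i (by simp)
  obtain ⟨hwj, hxj⟩ := hm j (by simp)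
  obtain ⟨hwk, hxk⟩ := hm k (by simp)
  have hfl := (hUZC E L hG).2 X hX T hT hXT i j k hij hik hjk hwi hwj hwk hxi hxj hxk
  obtain ⟨ψ, hψ⟩ := hUEX E L u hG hu i j k T hT ({i, j, k} : Set E)
    (fun g hg => ⟨(hm g hg).1, (hfl g).1 (hm g hg).2⟩) a0
  refine ⟨fun g => ψ (u i j k g), ?_, ?_⟩
  · intro g hg hXg
    refine hψ g ?_
    rw [← hJ]
    exact ⟨hg, hXg⟩
  · intro Z hZ hXZ a b c habc
    have hT' : IsTope L (cmp Z T) := by
      refine tope_of (hG.om.comp Z hZ.1 T hT.1) fun e => ?_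
      by_cases he : Z e = 0
      · rw [cmp_pos he]
        exact tope_supp hG.om hG.simple hT e
      · rw [cmp_neg he]
        exact he
    have hZT' : Le Z (cmp Z T) := le_cmp Z T
    obtain ⟨p, q, hpq, hPQ⟩ := Set.ncard_eq_two.1 (hZ.2 _ hT' hZT')
    have hm' : ∀ g, g ∈ ({p, q} : Set E) → Wall L (cmp Z T) g ∧ Z g = 0 := fun g hg => by
      rw [← hPQ] at hg
      exact hg
    obtain ⟨hwp, hzp⟩ := hm' p (by simp)
    obtain ⟨hwq, hzq⟩ := hm' q (by simp)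
    have hfl' := (hUZC E L hG).1 Z hZ _ hT' hZT' p q hpq hwp hwq hzp hzq
    have hXg : ∀ g, Z g = 0 → X g = 0 := by
      intro g hg
      rcases hXZ g with h | h
      · exact h
      · rw [h, hg]
    obtain ⟨A, hA⟩ := hu.compat a b c i j k p q (fun g hg =>
      ⟨habc g ((hfl' g).2 hg), (hfl g).1 (hXg g ((hfl' g).2 hg))⟩)
    refine ⟨ψ.comp A, fun g hg => ?_⟩
    rw [LinearMap.comp_apply, hA g ((hfl' g).1 hg)]

end Pool.Agent.helper66.SL
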